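import Pool.Agent.Y113.MT.AStm

/-!
# Simplicity of the symplectic Lie algebra of matrices over the rational numbers
-/

set_option autoImplicit false

open Matrix

namespace Pool.Agent.Y220.MT

variable {n : ℕ}

theorem rk_mul (M J : Matrix (Fin n) (Fin n) ℚ) (a b : Fin n → ℚ) :
    (vecMulVec a a * M) * (vecMulVec b b * J) = (a ⬝ᵥ (M *ᵥ b)) • (vecMulVec a b * J) := by
  rw [← Matrix.mul_assoc, Matrix.mul_assoc (vecMulVec a a), mul_vecMulVec,
    vecMulVec_mul_vecMulVec, vecMulVec_smul, smul_mul_assoc]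

theorem skew {J : Matrix (Fin n) (Fin n) ℚ} (hJ : Jᵀ = -J) (v w : Fin n → ℚ) :
    w ⬝ᵥ (J *ᵥ v) = -(v ⬝ᵥ (J *ᵥ w)) := by
  rw [dotProduct_mulVec, ← mulVec_transpose, hJ, neg_mulVec, neg_dotProduct, dotProduct_comm]

theorem skew_self {J : Matrix (Fin n) (Fin n) ℚ} (hJ : Jᵀ = -J) (v : Fin n → ℚ) :
    v ⬝ᵥ (J *ᵥ v) = 0 := by
  have := skew hJ v v
  linarith

/-- the double bracket with a rank one element -/
theorem dbl {J : Matrix (Fin n) (Fin n) ℚ} (hJ : Jᵀ = -J) (v : Fin n → ℚ)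
    (Y : Matrix (Fin n) (Fin n) ℚ) :
    (vecMulVec v v * J) * ((vecMulVec v v * J) * Y - Y * (vecMulVec v v * J)) -
      ((vecMulVec v v * J) * Y - Y * (vecMulVec v v * J)) * (vecMulVec v v * J) =
      (-2 * (v ⬝ᵥ ((J * Y) *ᵥ v))) • (vecMulVec v v * J) := by
  have h1 : (vecMulVec v v * J) * (vecMulVec v v * J) = 0 := by
    rw [rk_mul, skew_self hJ, zero_smul]
  have h2 : (vecMulVec v v * J) * Y * (vecMulVec v v * J) =
      (v ⬝ᵥ ((J * Y) *ᵥ v)) • (vecMulVec v v * J) := by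
    rw [Matrix.mul_assoc (vecMulVec v v) J Y, rk_mul]
  generalize hR : vecMulVec v v * J = R at h1 h2 ⊢
  have h3 : R * (R * Y - Y * R) - (R * Y - Y * R) * R =
      (R * R) * Y - (2 : ℚ) • (R * Y * R) + Y * (R * R) := by
    rw [two_smul]
    noncomm_ring
  rw [h3, h1, h2, Matrix.zero_mul, Matrix.mul_zero, smul_smul, zero_sub, add_zero, ← neg_smul]
  congr 1
  ring

/-- a symmetric matrix which vanishes as a quadratic form is zero -/
theorem polar {M : Matrix (Fin n) (Fin n) ℚ} (hM : Mᵀ = M)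
    (h : ∀ v : Fin n → ℚ, v ⬝ᵥ (M *ᵥ v) = 0) : M = 0 := by
  have h1 : ∀ v w : Fin n → ℚ, v ⬝ᵥ (M *ᵥ w) = 0 := by
    intro v w
    have h2 := h (v + w)
    rw [mulVec_add, dotProduct_add, add_dotProduct, add_dotProduct, h v, h w] at h2
    have h3 : w ⬝ᵥ (M *ᵥ v) = v ⬝ᵥ (M *ᵥ w) := by
      rw [dotProduct_mulVec, ← mulVec_transpose, hM, dotProduct_comm]
    rw [h3] at h2
    linarith
  ext i j
  have h4 := h1 (Pi.single i 1) (Pi.single j 1)
  rw [single_one_dotProduct, mulVec_single_one] at h4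
  exact h4

/-- the rank one elements span -/
theorem span {A J : Matrix (Fin n) (Fin n) ℚ} (hA : Aᵀ = -A) (hAJ : A * J = 1)
    (V : Submodule ℚ (Matrix (Fin n) (Fin n) ℚ))
    (hvv : ∀ v : Fin n → ℚ, vecMulVec v v * J ∈ V)
    (X : Matrix (Fin n) (Fin n) ℚ) (hX : X * A + A * Xᵀ = 0) : X ∈ V := by
  set S := X * A with hS
  have hSs : Sᵀ = S := by
    rw [hS, transpose_mul, hA, Matrix.neg_mul]
    exact (eq_neg_of_add_eq_zero_left hX).symm
  have hXS : X = S * J := by rw [hS, Matrix.mul_assoc, hAJ, Matrix.mul_one]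
  have hent : ∀ i j a b : Fin n, (vecMulVec (Pi.single i (1 : ℚ)) (Pi.single j (1 : ℚ)) :
      Matrix (Fin n) (Fin n) ℚ) a b = (if a = i then (1 : ℚ) else 0) * (if b = j then 1 else 0) := by
    intro i j a b
    rw [vecMulVec_apply, Pi.single_apply, Pi.single_apply]
  have hdec0 : S = ∑ i, ∑ j, (S i j / 2) • (vecMulVec (Pi.single i (1 : ℚ)) (Pi.single j (1 : ℚ)) +
      vecMulVec (Pi.single j (1 : ℚ)) (Pi.single i (1 : ℚ))) := by
    ext a b
    rw [Matrix.sum_apply]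
    have h4 : ∀ i, (∑ j, (S i j / 2) • (vecMulVec (Pi.single i (1 : ℚ)) (Pi.single j (1 : ℚ)) +
        vecMulVec (Pi.single j (1 : ℚ)) (Pi.single i (1 : ℚ)) : Matrix (Fin n) (Fin n) ℚ)) a b =
        (if a = i then S i b / 2 else 0) + (if b = i then S i a / 2 else 0) := by
      intro i
      rw [Matrix.sum_apply]
      have h5 : ∀ j, ((S i j / 2) • (vecMulVec (Pi.single i (1 : ℚ)) (Pi.single j (1 : ℚ)) +
          vecMulVec (Pi.single j (1 : ℚ)) (Pi.single i (1 : ℚ)) : Matrix (Fin n) (Fin n) ℚ)) a b =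
          (if b = j then (if a = i then S i j / 2 else 0) else 0) +
          (if a = j then (if b = i then S i j / 2 else 0) else 0) := by
        intro j
        rw [Matrix.smul_apply, Matrix.add_apply, hent, hent, smul_eq_mul]
        split_ifs <;> ring
      rw [Finset.sum_congr rfl fun j _ => h5 j, Finset.sum_add_distrib, Finset.sum_ite_eq,
        Finset.sum_ite_eq]
      simp only [Finset.mem_univ, if_true]
    rw [Finset.sum_congr rfl fun i _ => h4 i, Finset.sum_add_distrib, Finset.sum_ite_eq,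
      Finset.sum_ite_eq]
    simp only [Finset.mem_univ, if_true]
    have h3 : S b a = S a b := by
      have := congrFun (congrFun hSs a) b
      rwa [transpose_apply] at this
    rw [h3]
    ring
  obtain ⟨e, he⟩ : ∃ e : Fin n → Fin n → ℚ, e = fun i => Pi.single i 1 := ⟨_, rfl⟩
  have hdec : S = ∑ i, ∑ j, (S i j / 2) • (vecMulVec (e i + e j) (e i + e j) -
      vecMulVec (e i) (e i) - vecMulVec (e j) (e j)) := by
    have h1 : ∀ i j, vecMulVec (e i + e j) (e i + e j) -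
        vecMulVec (e i) (e i) - vecMulVec (e j) (e j) =
        vecMulVec (e i) (e j) + vecMulVec (e j) (e i) := by
      intro i j
      rw [vecMulVec_add, add_vecMulVec, add_vecMulVec]
      abel
    conv_lhs => rw [hdec0]
    refine Finset.sum_congr rfl fun i _ => Finset.sum_congr rfl fun j _ => ?_
    rw [h1, he]
  rw [hXS, hdec, Finset.sum_mul]
  refine V.sum_mem fun i _ => ?_
  rw [Finset.sum_mul]
  refine V.sum_mem fun j _ => ?_
  rw [smul_mul_assoc, Matrix.sub_mul, Matrix.sub_mul]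
  exact V.smul_mem _ (V.sub_mem (V.sub_mem (hvv _) (hvv _)) (hvv _))

theorem sim : Pool.Agent.Y113.MT.S_SIM := by
  intro n A hA hd L hL Y hYL hY hY0 X hX
  obtain ⟨J, hJdef⟩ : ∃ J : Matrix (Fin n) (Fin n) ℚ, J = A⁻¹ := ⟨_, rfl⟩
  have hu : IsUnit A.det := isUnit_iff_ne_zero.2 hd
  have hAJ : A * J = 1 := by rw [hJdef]; exact A.mul_nonsing_inv hu
  have hJA : J * A = 1 := by rw [hJdef]; exact A.nonsing_inv_mul hu
  have hJ : Jᵀ = -J := by
    rw [hJdef, transpose_nonsing_inv, hA]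
    apply inv_eq_right_inv
    rw [neg_mul_neg, ← hJdef, hAJ]
  have hsp : ∀ v : Fin n → ℚ, (vecMulVec v v * J) * A + A * (vecMulVec v v * J)ᵀ = 0 := by
    intro v
    rw [transpose_mul, hJ, transpose_vecMulVec, Matrix.mul_assoc, hJA, Matrix.mul_one,
      Matrix.neg_mul, Matrix.mul_neg, ← Matrix.mul_assoc, hAJ, Matrix.one_mul, add_neg_cancel]
  -- the basic step
  have hstep : ∀ (Z : Matrix (Fin n) (Fin n) ℚ) (v : Fin n → ℚ), Z ∈ L →
      v ⬝ᵥ ((J * Z) *ᵥ v) ≠ 0 → vecMulVec v v * J ∈ L := by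
    intro Z v hZ hv
    have h1 := hL _ (hsp v) _ (hL _ (hsp v) Z hZ)
    rw [dbl hJ] at h1
    have hc : -2 * (v ⬝ᵥ ((J * Z) *ᵥ v)) ≠ 0 := mul_ne_zero (by norm_num) hv
    have h2 := L.smul_mem (-2 * (v ⬝ᵥ ((J * Z) *ᵥ v)))⁻¹ h1
    rwa [smul_smul, inv_mul_cancel₀ hc, one_smul] at h2
  have hstep2 : ∀ v w : Fin n → ℚ, vecMulVec v v * J ∈ L → w ⬝ᵥ (J *ᵥ v) ≠ 0 →
      vecMulVec w w * J ∈ L := by
    intro v w hv hw
    refine hstep _ w hv ?_
    have h1 : w ⬝ᵥ ((J * (vecMulVec v v * J)) *ᵥ w) = (w ⬝ᵥ (J *ᵥ v)) * (v ⬝ᵥ (J *ᵥ w)) := by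
      rw [← mulVec_mulVec, ← mulVec_mulVec, vecMulVec_mulVec, mulVec_smul, dotProduct_smul]
      rw [MulOpposite.smul_eq_mul_unop, MulOpposite.unop_op]
    rw [h1]
    refine mul_ne_zero hw ?_
    rw [skew hJ]
    exact neg_ne_zero.2 hw
  -- nonzero functionals
  have hnz : ∀ v : Fin n → ℚ, v ≠ 0 → ∃ u : Fin n → ℚ, v ⬝ᵥ (J *ᵥ u) ≠ 0 := by
    intro v hv
    by_contra hcon
    push Not at hcon
    apply hv
    have h1 : v ᵥ* J = 0 := by
      ext i
      have := hcon (Pi.single i 1)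
      rw [dotProduct_mulVec, dotProduct_single, mul_one] at this
      exact this
    have h2 : v ᵥ* (J * A) = 0 := by
      rw [← vecMul_vecMul, h1, zero_vecMul]
    rwa [hJA, vecMul_one] at h2
  -- a rank one element
  obtain ⟨v, hv⟩ : ∃ v : Fin n → ℚ, v ⬝ᵥ ((J * Y) *ᵥ v) ≠ 0 := by
    by_contra hcon
    push Not at hcon
    have hYA : (Y * A)ᵀ = Y * A := by
      rw [transpose_mul, hA, Matrix.neg_mul]
      exact (eq_neg_of_add_eq_zero_left hY).symm
    have hJY : J * Y = J * (Y * A) * J := by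
      rw [Matrix.mul_assoc J (Y * A) J, Matrix.mul_assoc Y A J, hAJ, Matrix.mul_one]
    have hsym : (J * Y)ᵀ = J * Y := by
      rw [hJY, transpose_mul, transpose_mul, hYA, hJ, Matrix.neg_mul, Matrix.mul_neg,
        Matrix.mul_neg, neg_neg, Matrix.mul_assoc J (Y * A) J]
    have h0 := polar hsym hcon
    apply hY0
    calc Y = (A * J) * Y := by rw [hAJ, Matrix.one_mul]
      _ = A * (J * Y) := Matrix.mul_assoc _ _ _
      _ = 0 := by rw [h0, Matrix.mul_zero]
  have hvL : vecMulVec v v * J ∈ L := hstep Y v hYL hv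
  have hv0 : v ≠ 0 := by
    rintro rfl
    apply hv
    rw [zero_dotProduct]
  -- all the rank one elements
  have hall : ∀ w : Fin n → ℚ, vecMulVec w w * J ∈ L := by
    intro w
    by_cases hw : w = 0
    · subst hw
      rw [zero_vecMulVec, Matrix.zero_mul]
      exact L.zero_mem
    obtain ⟨w1, hw1⟩ := hnz v hv0
    obtain ⟨w2, hw2⟩ := hnz w hw
    have key : ∃ w' : Fin n → ℚ, v ⬝ᵥ (J *ᵥ w') ≠ 0 ∧ w ⬝ᵥ (J *ᵥ w') ≠ 0 := by
      by_cases h1 : w ⬝ᵥ (J *ᵥ w1) = 0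
      · by_cases h2 : v ⬝ᵥ (J *ᵥ w2) = 0
        · refine ⟨w1 + w2, ?_, ?_⟩
          · rw [mulVec_add, dotProduct_add, h2, add_zero]
            exact hw1
          · rw [mulVec_add, dotProduct_add, h1, zero_add]
            exact hw2
        · exact ⟨w2, h2, hw2⟩
      · exact ⟨w1, hw1, h1⟩
    obtain ⟨w', h1, h2⟩ := key
    have h3 : vecMulVec w' w' * J ∈ L := hstep2 v w' hvL (by
      rw [skew hJ]
      exact neg_ne_zero.2 h1)
    exact hstep2 w' w h3 h2
  exact span hA hAJ L hall X hX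

end Pool.Agent.Y220.MT
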